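import Pool.Agent.MWGN.StmtsB

/-!
# Squad MWGN (problem MP_23468a_al), row WCX: the conditions are kept by the exchange
-/

namespace Pool.Agent.MWGN.H94

open Pool.Agent.Helper14_MV Pool.Agent.Helper2_MV Pool.Agent.MWGN
open Pool.Agent.MWK (pre Gw)

theorem wcx (h1 : GlxStmt) (h2 : GlsStmt) : WcxStmt := by
  intro ν τ m nc hnc p X Y F G H U V hUV w w' hw hw' hG
  have hc : ∀ c, w'.count c = w.count c := by
    intro c
    rw [hw, hw']
    simp only [List.count_append]
    omega
  have gs := h2 p X Y F G H U V hUV w w' hw hw'
  have gx := h1 p X Y F G H U V hUV w w' hw hw' hG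
  refine ⟨fun h => ?_, fun h => ?_⟩
  · have xx : ∀ c i, i ≤ m + 1 → 2 ≤ w.count c → nn w c ν.b = w.count c →
        nn w' c (ν.L i) = nn w c (ν.L i) := by
      intro c i hi h3 hb
      refine gx c (ν.L i) ν.b h.sb ?_ ?_ (h.lb i hi) hb
      · intro e
        have := h.l2 i hi
        rw [e, h.sb] at this
        omega
      · intro e
        rw [e, h.sb] at h3
        omega
    exact
      { sa := by rw [hc]; exact h.sa
        sb := by rw [hc]; exact h.sb
        ob := by rw [gs _ _ h.sa]; exact h.ob
        x2 := by rw [hc]; exact h.x2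
        y2 := by rw [hc]; exact h.y2
        xa := by rw [gs _ _ h.sa]; exact h.xa
        ya := by rw [gs _ _ h.sa]; exact h.ya
        xb := by rw [gs _ _ h.sb, hc]; exact h.xb
        yb := by rw [gs _ _ h.sb, hc]; exact h.yb
        l2 := fun i hi => by rw [hc]; exact h.l2 i hi
        l0 := fun i hi => by rw [gs _ _ h.sa]; exact h.l0 i hi
        lb := fun i hi => by rw [gs _ _ h.sb]; exact h.lb i hi
        c2 := fun i hi => by rw [hc]; exact h.c2 i hi
        c0 := fun i hi => by rw [gs _ _ h.sa]; exact h.c0 i hi
        cb := fun i hi => by rw [gs _ _ h.sb, hc]; exact h.cb i hi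
        xl := fun i hi => by rw [xx ν.x i hi h.x2 h.xb, hc]; exact h.xl i hi
        yl := fun i hi => by rw [xx ν.y i hi h.y2 h.yb]; exact h.yl i hi
        cl0 := fun i hi j hj => by
          rw [xx (ν.C i) j (by omega) (h.c2 i hi) (h.cb i hi)]
          exact h.cl0 i hi j hj
        cl1 := fun i hi j hj hj' => by
          rw [xx (ν.C i) j hj' (h.c2 i hi) (h.cb i hi), hc]
          exact h.cl1 i hi j hj hj' }
  · exact
      { ss := fun i hi => by rw [hc]; exact h.ss i hi
        oS := fun i hi => by
          have h3 := h.ss i hi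
          have h4 := h.oS i hi
          by_cases e : ν.S i = ν.b
          · rw [e]
            exact List.count_eq_zero.2 (MWK.not_mem_pre w' ν.b)
          · have hm : ν.S i ∈ w := List.count_pos_iff.1 (by omega)
            have h5 : ν.S i ∉ pre w ν.b := List.count_eq_zero.1 h4
            rcases MWK.pre_total hm e with h6 | h6
            · exact absurd h6 h5
            · have h7 : 0 < nn w ν.b (ν.S i) := List.count_pos_iff.2 h6
              rw [← gs _ _ h3] at h7
              exact List.count_eq_zero.2 (MWK.pre_asymm (List.count_pos_iff.1 h7))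
        os := fun i j hi hj hij => by rw [gs _ _ (h.ss i hi)]; exact h.os i j hi hj hij
        lt := fun i hi => by rw [gs _ _ (h.ss i hi)]; exact h.lt i hi
        lT := fun i j hi hj hij => by
          rw [gs _ _ (h.ss j hj), hc]
          exact h.lT i j hi hj hij }

end Pool.Agent.MWGN.H94
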